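import Pool.Agent.Helper19.T6.PSC

set_option autoImplicit false

/-!
MP_2f9829_co, all degrees: module LOW2, local lower bound of the gauge fixing function.
-/

open Finset MeasureTheory Filter Topology

namespace Pool.Agent.Helper98.T6

open Pool.Agent.Helper15.T4 (IsPM PM cov IsMat nsq po)
open Pool.Agent.Helper15.T6
open Pool.Agent.Helper46.T6
open Pool.Agent.Helper46.T6.PSC19

theorem OD_GO {d : ℕ} (O : GO d) : OD (O : Md d) := by
  have h := (Matrix.mem_orthogonalGroup_iff (Fin d) ℝ).mp O.2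
  exact h

theorem nsqm_nonneg' {d : ℕ} (A : Md d) : 0 ≤ nsqm A :=
  Finset.sum_nonneg fun _ _ => Finset.sum_nonneg fun _ _ => sq_nonneg _

/-- Lower bound of `Psid` by the integral over a product of balls. -/
theorem Psid_ball (d K N : ℕ) (x : (Fin K × Fin 2 → Fin d) → ℝ) (R m : ℝ)
    (hb : ∀ O : Fin K → GO d, (∀ p, nsqm ((O p : Md d) - 1) ≤ R) →
      m ≤ Real.exp (-(N : ℝ) *
        nsq (fun a => x a - pt (Equiv.refl _) (fun p => ((O p : GO d) : Md d)) a))) :
    vb d R ^ K * m ≤ Psid d K N x := by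
  have h1 : ∫ O, Fx d K N 1 (Equiv.refl _) x O ∂(mu d K) ≤ Psid d K N x := by
    rw [Psid_eq]
    refine le_trans ?_ (Finset.single_le_sum (f := fun s : ℤˣ =>
      ∑ π : Equiv.Perm (Fin K × Fin 2), ∫ O, Fx d K N s π x O ∂(mu d K))
      (fun s _ => Finset.sum_nonneg
        (fun π _ => integral_nonneg (fun O => (Fx_pos d K N s π x O).le)))
      (Finset.mem_univ (1 : ℤˣ)))
    exact Finset.single_le_sum (f := fun π : Equiv.Perm (Fin K × Fin 2) =>
      ∫ O, Fx d K N 1 π x O ∂(mu d K))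
      (fun π _ => integral_nonneg (fun O => (Fx_pos d K N 1 π x O).le))
      (Finset.mem_univ (Equiv.refl _))
  set B : Set (GO d) := {O : GO d | nsqm ((O : Md d) - 1) ≤ R} with hB
  have hBm : MeasurableSet B := by
    apply IsClosed.measurableSet
    apply isClosed_le _ continuous_const
    have hc : Continuous (fun O : GO d => ((O : Md d) - 1)) :=
      continuous_subtype_val.sub continuous_const
    unfold nsqm
    refine continuous_finsetSum _ fun i _ => continuous_finsetSum _ fun j _ => ?_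
    exact ((continuous_apply_apply i j).comp hc).pow 2
  set S : Set (Fin K → GO d) := Set.pi Set.univ (fun _ => B) with hS
  have hSm : MeasurableSet S := MeasurableSet.univ_pi (fun _ => hBm)
  have h2 : ∫ O in S, Fx d K N 1 (Equiv.refl _) x O ∂(mu d K) ≤
      ∫ O, Fx d K N 1 (Equiv.refl _) x O ∂(mu d K) :=
    setIntegral_le_integral (Fx_int d K N 1 _ x)
      (Filter.Eventually.of_forall (fun O => (Fx_pos d K N 1 _ x O).le))
  have hvol : (mu d K).real S = vb d R ^ K := by
    rw [Measure.real, hS, Measure.pi_pi, Finset.prod_const, Finset.card_univ, Fintype.card_fin,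
      ENNReal.toReal_pow]
    rfl
  have h3 : ∫ _O in S, m ∂(mu d K) ≤ ∫ O in S, Fx d K N 1 (Equiv.refl _) x O ∂(mu d K) := by
    refine setIntegral_mono_on (integrable_const _).integrableOn
      (Fx_int d K N 1 _ x).integrableOn hSm ?_
    intro O hO
    have h4 := hb O (fun p => hO p (Set.mem_univ p))
    unfold Fx
    simpa using h4
  rw [setIntegral_const, smul_eq_mul, hvol] at h3
  exact h3.trans (h2.trans h1)

theorem nsq_add_le' {ι : Type} [Fintype ι] (x y : ι → ℝ) :
    nsq (fun a => x a + y a) ≤ nsq x + 2 * (Real.sqrt (nsq x) * Real.sqrt (nsq y)) + nsq y := by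
  have hx := PSC19.nsq_nonneg x
  have h1 : (∑ a, x a * y a) ^ 2 ≤ nsq x * nsq y := Finset.sum_mul_sq_le_sq_mul_sq _ _ _
  have h2 : |∑ a, x a * y a| ≤ Real.sqrt (nsq x) * Real.sqrt (nsq y) := by
    rw [← Real.sqrt_mul hx]
    exact Real.abs_le_sqrt h1
  have h3 : nsq (fun a => x a + y a) = nsq x + nsq y + 2 * ∑ a, x a * y a := by
    unfold nsq
    rw [Finset.mul_sum, ← Finset.sum_add_distrib, ← Finset.sum_add_distrib]
    apply Finset.sum_congr rfl
    intro a _
    ring
  rw [h3]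
  have := le_abs_self (∑ a, x a * y a)
  linarith

theorem tqd_nonneg' (d K : ℕ) (h : (Fin K × Fin 2 → Fin d) → ℝ) : 0 ≤ tqd d K h :=
  Finset.sum_nonneg fun _ _ => sq_nonneg _

theorem st_LOW2 (hMOVE : ST_MOVE) (hNEAR : ST_NEAR) (hPSINV : ST_PSINV) (hLOC : ST_LOC)
    (hTIGHT : ST_TIGHT) : ST_LOW2 := by
  intro d hd K
  obtain ⟨C1, r, hC1, hr, hM⟩ := hMOVE d hd K
  obtain ⟨C2, hC2, hN2⟩ := hNEAR d hd K
  obtain ⟨C3, hC3, hL⟩ := hLOC d hd K
  obtain ⟨hpsi, _, _, _, hT5⟩ := hTIGHT d hd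
  obtain ⟨c4, hc4, hvb⟩ := hT5 1 one_pos
  have hK0 : (0 : ℝ) ≤ K := Nat.cast_nonneg K
  set Q : ℝ := Real.sqrt C1 with hQ
  have hQ0 : 0 < Q := Real.sqrt_pos.mpr hC1
  have hQ2 : Q ^ 2 = C1 := Real.sq_sqrt hC1.le
  set k : ℝ := Real.sqrt K with hk
  have hk0 : 0 ≤ k := Real.sqrt_nonneg _
  have hk2 : k ^ 2 = K := Real.sq_sqrt hK0
  set D : ℝ := C3 * K + C2 * K + C2 * Q * k with hD
  refine ⟨c4 ^ K * Real.exp (-D), min r 1, 2 * Q + C1 + C2 * Q * k, by positivity,
    lt_min hr one_pos, ?_⟩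
  intro N hN h hh
  have hN1 : (1 : ℝ) ≤ N := by exact_mod_cast hN
  have hN0 : (0 : ℝ) < N := by linarith
  obtain ⟨A, g, e, hA, hact, hg0, hgn, hen⟩ := hM h (hh.trans (min_le_left _ _))
  have hn0 := PSC19.nsq_nonneg h
  have ht0 := tqd_nonneg' d K h
  set a := Real.sqrt (nsq h) with ha
  have ha0 : 0 ≤ a := Real.sqrt_nonneg _
  have ha2 : a ^ 2 = nsq h := Real.sq_sqrt hn0
  have ha1 : a ≤ 1 := by
    rw [ha, Real.sqrt_le_one]
    exact hh.trans (min_le_right _ _)
  set n := Real.sqrt N with hn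
  have hn1 : 1 ≤ n := by
    rw [hn, Real.one_le_sqrt]
    exact hN1
  have hn2 : n ^ 2 = N := Real.sq_sqrt hN0.le
  have hnp : 0 < n := by linarith
  have hsg : Real.sqrt (nsq g) ≤ a := by
    rw [ha]
    apply Real.sqrt_le_sqrt
    rw [hgn]
    linarith
  have hse : Real.sqrt (nsq e) ≤ Q * a ^ 2 := by
    rw [Real.sqrt_le_left (by positivity), mul_pow, hQ2, ← pow_mul]
    rw [← ha2] at hen
    rw [← pow_mul] at hen
    exact hen
  have hse2 : nsq e ≤ C1 * a ^ 4 := by
    rw [← ha2, ← pow_mul] at hen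
    exact hen
  have hinv : Psid d K N (fun b => u0 d K b + h b) = Psid d K N (fun b => u0 d K b + g b + e b) := by
    rw [← hact]
    exact ((hPSINV d K N _).1 A hA).symm
  rw [hinv]
  set m : ℝ := Real.exp (-(N : ℝ) * (nsq h - tqd d K h) -
    (2 * Q + C1 + C2 * Q * k) * N * a ^ 3 - D) with hm
  have hball := Psid_ball d K N (fun b => u0 d K b + g b + e b) (1 / N) m ?_
  · refine le_trans ?_ hball
    have h1 := hvb N hN
    have h2 : (c4 * psiN d N) ^ K ≤ vb d (1 / N) ^ K :=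
      pow_le_pow_left₀ (mul_nonneg hc4.le (hpsi N).1.le) h1 K
    have h3 : c4 ^ K * Real.exp (-D) * psiN d N ^ K *
        Real.exp (-(N : ℝ) * (nsq h - tqd d K h) - (2 * Q + C1 + C2 * Q * k) * N * a ^ 3) =
        (c4 * psiN d N) ^ K * m := by
      rw [hm, sub_eq_add_neg (_ - _) D, Real.exp_add, mul_pow]
      ring
    rw [h3]
    exact mul_le_mul_of_nonneg_right h2 (Real.exp_pos _).le
  · intro O hO
    have hOD : ∀ p, OD ((O p : GO d) : Md d) := fun p => OD_GO _
    set S : ℝ := ∑ p, nsqm (((O p : GO d) : Md d) - 1) with hS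
    have hS0 : 0 ≤ S := Finset.sum_nonneg fun p _ => nsqm_nonneg' _
    have hSN : S ≤ K / N := by
      calc S ≤ ∑ _p : Fin K, 1 / (N : ℝ) := Finset.sum_le_sum fun p _ => hO p
        _ = K / N := by simp [div_eq_mul_inv]
    have hsS : Real.sqrt S ≤ k / n := by
      rw [Real.sqrt_le_left (by positivity), div_pow, hk2, hn2]
      exact hSN
    have e1 := (abs_le.mp (hN2 g e (fun p => ((O p : GO d) : Md d)) hg0 hOD)).2
    have e2 := (hL (fun p => ((O p : GO d) : Md d)) hOD).2
    have e3 := nsq_add_le' g e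
    rw [hm, Real.exp_le_exp]
    have hNS : (N : ℝ) * S ≤ K := by
      have := mul_le_mul_of_nonneg_left hSN hN0.le
      rwa [mul_div_cancel₀ _ hN0.ne'] at this
    have hna : n * a ^ 2 ≤ 1 + N * a ^ 3 := by
      rw [← hn2]
      rcases le_total (n * a) 1 with h1 | h1
      · have : n * a ^ 2 ≤ 1 * a := by
          rw [pow_two, ← mul_assoc]
          exact mul_le_mul_of_nonneg_right h1 ha0
        have : 0 ≤ n ^ 2 * a ^ 3 := by positivity
        linarith
      · have : n * a ^ 2 * 1 ≤ n * a ^ 2 * (n * a) :=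
          mul_le_mul_of_nonneg_left h1 (by positivity)
        have e10 : n * a ^ 2 * (n * a) = n ^ 2 * a ^ 3 := by ring
        rw [e10] at this
        linarith
    have f1 : Real.sqrt (nsq g) * Real.sqrt (nsq e) ≤ Q * a ^ 3 := by
      calc Real.sqrt (nsq g) * Real.sqrt (nsq e) ≤ a * (Q * a ^ 2) :=
            mul_le_mul hsg hse (Real.sqrt_nonneg _) ha0
        _ = Q * a ^ 3 := by ring
    have f2 : nsq e ≤ C1 * a ^ 3 := by
      refine hse2.trans (mul_le_mul_of_nonneg_left ?_ hC1.le)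
      exact pow_le_pow_of_le_one ha0 ha1 (by norm_num)
    have f3 : Real.sqrt (nsq g) * S ≤ S := by
      have := mul_le_mul_of_nonneg_right (hsg.trans ha1) hS0
      linarith
    have f4 : (N : ℝ) * (Real.sqrt (nsq e) * Real.sqrt S) ≤ Q * k * (1 + N * a ^ 3) := by
      have g1 : Real.sqrt (nsq e) * Real.sqrt S ≤ Q * a ^ 2 * (k / n) :=
        mul_le_mul hse hsS (Real.sqrt_nonneg _) (by positivity)
      have g2 : (N : ℝ) * (Q * a ^ 2 * (k / n)) = Q * k * (n * a ^ 2) := by
        rw [← hn2]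
        field_simp
      have g3 := mul_le_mul_of_nonneg_left g1 hN0.le
      rw [g2] at g3
      exact g3.trans (mul_le_mul_of_nonneg_left hna (by positivity))
    have f5 : (N : ℝ) * nsq (fun b => u0 d K b + g b + e b -
        pt (Equiv.refl _) (fun p => ((O p : GO d) : Md d)) b) ≤
        N * (nsq g + 2 * (Q * a ^ 3) + C1 * a ^ 3 + C3 * S + C2 * S) +
          C2 * (N * (Real.sqrt (nsq e) * Real.sqrt S)) := by
      have g1 : nsq (fun b => u0 d K b + g b + e b -
          pt (Equiv.refl _) (fun p => ((O p : GO d) : Md d)) b) ≤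
          nsq g + 2 * (Q * a ^ 3) + C1 * a ^ 3 + C3 * S + C2 * S +
            C2 * (Real.sqrt (nsq e) * Real.sqrt S) := by
        have g2 : C2 * (Real.sqrt (nsq g) * S + Real.sqrt (nsq e) * Real.sqrt S) ≤
            C2 * S + C2 * (Real.sqrt (nsq e) * Real.sqrt S) := by
          rw [mul_add]
          have := mul_le_mul_of_nonneg_left f3 hC2.le
          linarith
        linarith
      have g3 := mul_le_mul_of_nonneg_left g1 hN0.le
      linarith
    have f6 : C2 * (N * (Real.sqrt (nsq e) * Real.sqrt S)) ≤ C2 * (Q * k * (1 + N * a ^ 3)) :=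
      mul_le_mul_of_nonneg_left f4 hC2.le
    have f7 : C3 * ((N : ℝ) * S) ≤ C3 * K := mul_le_mul_of_nonneg_left hNS hC3.le
    have f8 : C2 * ((N : ℝ) * S) ≤ C2 * K := mul_le_mul_of_nonneg_left hNS hC2.le
    rw [hD, ← hgn]
    linarith

end Pool.Agent.Helper98.T6
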